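import Pool.Agent.Run7.h270.Final

set_option autoImplicit false

namespace Pool.Agent.Results.MP_e44b8a_al.TorusPreserving

open FreeAlgebra Run7.h270

/-- Let `K` be a field of characteristic zero, `A = K⟨x_0, x_1, x_2⟩` and `Φ` an automorphism of the
abstract group `Aut A` that maps the diagonal torus onto a conjugate of itself. Then there is a
ring automorphism `σ` of `A` such that `Φ` is conjugation by `σ` on all affine automorphisms and on
all tame automorphisms in two variables, maps every elementary automorphism `x_k ↦ x_k + f` to the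
`σ`-conjugate of `x_k ↦ x_k + l f` for a linear bijection `l` of `A_k` that commutes with the tame
automorphisms of `A_k` and fixes the linear span of the tame coordinates of `A_k`, and maps the
tame subgroup onto its `σ`-conjugate. -/
theorem result (K : Type*) [Field K] [CharZero K]
    (Φ : (FreeAlgebra K (Fin 3) ≃ₐ[K] FreeAlgebra K (Fin 3)) ≃*
      (FreeAlgebra K (Fin 3) ≃ₐ[K] FreeAlgebra K (Fin 3)))
    (h : FreeAlgebra K (Fin 3) ≃ₐ[K] FreeAlgebra K (Fin 3))
    (hD : (Diag K).map Φ.toMonoidHom = (Diag K).map (MulAut.conj h).toMonoidHom) :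
    ∃ σ : FreeAlgebra K (Fin 3) ≃+* FreeAlgebra K (Fin 3),
      (∀ g, IsAffine g → ∀ a, Φ g a = σ (g (σ.symm a))) ∧
      (∀ k, ∀ g ∈ TameTwo K k, ∀ a, Φ g a = σ (g (σ.symm a))) ∧
      (∀ k, ∃ l : Ak K k ≃ₗ[K] Ak K k,
        (∀ f a, Φ (elem k f) a = σ (elem k (l f) (σ.symm a))) ∧
        (∀ g (hg : g ∈ TameTwo K k) (f : Ak K k),
          (l ⟨g f, tameTwo_mem_Ak hg f⟩ : FreeAlgebra K (Fin 3)) = g (l f)) ∧
        (∀ f : Ak K k, (f : FreeAlgebra K (Fin 3)) ∈ Submodule.span K
          {a | ∃ g ∈ TameTwo K k, ∃ i, i ≠ k ∧ a = g (ι K i)} → l f = f)) ∧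
      (∀ g, (∃ g' ∈ Tame K, ∀ a, Φ g a = σ (g' (σ.symm a))) ↔ g ∈ Tame K) :=
  main Φ h hD

end Pool.Agent.Results.MP_e44b8a_al.TorusPreserving
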